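import Pool.Agent.X47.CP8

/-!
# MP_6c0529_co: common induced partitions of two trees versus two caterpillars

The equality `s_n = c_n` fails: `s_7 ≤ 125 < 126 = c_7`.
-/

namespace Pool.Agent.Results.MP_6c0529_co.SeparationAtSeven

open Pool.Agent.X47.CP

/-- The minimum `s_7` over all pairs of semilabeled binary trees of size seven is at most `125`,
while the minimum `c_7` over pairs of caterpillars is exactly `126`; so `s_n = c_n` is not true for
every `n ≥ 1`. -/
theorem result : sMin 7 ≤ 125 ∧ cMin 7 = 126 ∧ ¬ ∀ n : ℕ, 1 ≤ n → sMin n = cMin n := by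
  refine ⟨sMin_seven, cMin_seven, ?_⟩
  intro h
  have h1 := h 7 (by norm_num)
  have h2 := sMin_seven
  rw [h1, cMin_seven] at h2
  omega

end Pool.Agent.Results.MP_6c0529_co.SeparationAtSeven
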